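import Mathlib
import Pool.Agent.Lib.MP_2948f4_lc.Defs
import Pool.Agent.Lib.MP_2948f4_lc.Main
import Pool.Agent.Lib.MP_2948f4_lc.Bip

set_option autoImplicit false

namespace Pool.Agent.Results.MP_2948f4_lc.NoUltrafilter

open Pool.Agent.Lib.MP_2948f4_lc

theorem result {X : Type} [TopologicalSpace X] [PolishSpace X] [MeasurableSpace X] [BorelSpace X]
    (Γ : SimpleGraph X) (hBorel : MeasurableSet {p : X × X | Γ.Adj p.1 p.2})
    (hbip : ∀ (v : X) (w : Γ.Walk v v), w.IsCycle → Even w.length)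
    (e : X → Set ℕ) (he : MeasurableEmbedding e) (c : Set ℕ) :
    ∃ M : ZFSet.{0}, IsZFDC M ∧ code c ∈ M ∧
      (∃ f ∈ M, ZFSet.IsFunc (ZFSet.omega.powerset ∩ M) {∅, {∅}} f ∧
        ∀ x y : X, Γ.Adj x y → ∀ i j : ZFSet.{0},
          ZFSet.pair (code (e x)) i ∈ f → ZFSet.pair (code (e y)) j ∈ f → i ≠ j) ∧
      ¬ ∃ U ∈ M, IsNonprincipalUltrafilter M U := by
  classical
  obtain ⟨χ⟩ := colorable_of_no_odd_cycle hbip
  let Γ' : Set (Set ℕ × Set ℕ) := Prod.map e e '' {p : X × X | Γ.Adj p.1 p.2}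
  have hΓ' : MeasurableSet Γ' := (he.prodMap he).measurableSet_image.2 hBorel
  let Proper : (Set ℕ → Bool) → Prop := fun g => ∀ a b, (a, b) ∈ Γ' → g a ≠ g b
  have hex : ∃ g, Proper g := by
    refine ⟨fun a => if h : ∃ x, e x = a then decide (χ h.choose = 0) else true, ?_⟩
    rintro _ _ ⟨⟨x, y⟩, hxy, h⟩
    obtain ⟨rfl, rfl⟩ := Prod.ext_iff.1 h
    have hx : ∃ x', e x' = e x := ⟨x, rfl⟩
    have hy : ∃ y', e y' = e y := ⟨y, rfl⟩
    have h1 : hx.choose = x := he.injective hx.choose_spec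
    have h2 : hy.choose = y := he.injective hy.choose_spec
    have h3 : χ x ≠ χ y := χ.valid hxy
    simp only [Prod.map, dif_pos hx, dif_pos hy, h1, h2]
    revert h3
    generalize χ x = s
    generalize χ y = t
    revert s t
    decide
  let K : Conn :=
    { R := fun ε a b => ∀ g, Proper g → xor (g a) (g b) = ε
      refl := fun a g _ => Bool.xor_self _
      symm := fun h g hg => by rw [Bool.xor_comm]; exact h g hg
      trans := fun {ε ε' a b c} h h' g hg => by
        rw [← h g hg, ← h' g hg]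
        cases g a <;> cases g b <;> cases g c <;> rfl
      odd := fun a h => by
        obtain ⟨g, hg⟩ := hex
        have := h g hg
        simp at this }
  obtain ⟨M, h1, h2, ⟨f, h3, h4, h5⟩, h6⟩ := core K Γ' hΓ' (fun a b hab g hg => by
    have := hg a b hab
    revert this
    cases g a <;> cases g b <;> simp) c
  exact ⟨M, h1, h2, ⟨f, h3, h4, fun x y hxy => h5 _ _ ⟨(x, y), hxy, rfl⟩⟩, h6⟩

end Pool.Agent.Results.MP_2948f4_lc.NoUltrafilter
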